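import Pool.Agent.H79.QN.Stmts

set_option autoImplicit false

namespace Pool.Agent.H79.QN

theorem clw : S_CLW := by
  intro w
  have hj : ∀ j : ℕ, ((2 : ℝ) ^ j) ^ 2 = 4 ^ j := by
    intro j
    rw [← pow_mul, mul_comm, pow_mul]
    norm_num
  have hn : ((nsq w).natAbs : ℝ) = (nsq w : ℝ) := by
    have h0 : 0 ≤ nsq w := by
      unfold nsq
      positivity
    rw [Nat.cast_natAbs, abs_of_nonneg h0]
  have hp : ((w.2).natAbs : ℝ) = |(w.2 : ℝ)| := by
    rw [Nat.cast_natAbs, Int.cast_abs]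
  refine ⟨?_, ?_, ?_, ?_⟩
  · have h := Nat.pow_log_le_self 2 (x := w.2.natAbs + 1) (by omega)
    have h2 : ((2 ^ Nat.log 2 (w.2.natAbs + 1) : ℕ) : ℝ) ≤ ((w.2.natAbs + 1 : ℕ) : ℝ) := by
      exact_mod_cast h
    push_cast at h2
    rw [← hp]
    exact h2
  · have h := Nat.lt_pow_succ_log_self (b := 2) (by norm_num) (w.2.natAbs + 1)
    have h2 : ((w.2.natAbs + 1 : ℕ) : ℝ) < ((2 ^ (Nat.log 2 (w.2.natAbs + 1)).succ : ℕ) : ℝ) := by
      exact_mod_cast h
    push_cast at h2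
    rw [← hp]
    calc _ < _ := h2
      _ = _ := by
        unfold iOf
        rw [Nat.succ_eq_add_one, pow_succ]
        ring
  · have h := Nat.pow_log_le_self 4 (x := (nsq w).natAbs + 1) (by omega)
    have h2 : ((4 ^ Nat.log 4 ((nsq w).natAbs + 1) : ℕ) : ℝ) ≤ (((nsq w).natAbs + 1 : ℕ) : ℝ) := by
      exact_mod_cast h
    push_cast at h2
    rw [hj, ← hn]
    exact h2
  · have h := Nat.lt_pow_succ_log_self (b := 4) (by norm_num) ((nsq w).natAbs + 1)
    have h2 : (((nsq w).natAbs + 1 : ℕ) : ℝ) < ((4 ^ (Nat.log 4 ((nsq w).natAbs + 1)).succ : ℕ) : ℝ) := by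
      exact_mod_cast h
    push_cast at h2
    rw [hj, ← hn]
    calc _ < _ := h2
      _ = _ := by
        unfold jOf
        rw [Nat.succ_eq_add_one, pow_succ]
        ring

end Pool.Agent.H79.QN
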