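import Pool.Agent.H79.QN.Stmts2

set_option autoImplicit false

namespace Pool.Agent.H79.QN

open Finset

theorem rog_nsq_wz (z : ℤ × ℤ) : nsq (wz z) = 2 * mz z := by
  unfold nsq wz mz
  ring

theorem rog_wz_inj : Function.Injective wz := by
  intro z z' h
  unfold wz at h
  simp only [Prod.mk.injEq] at h
  obtain ⟨h1, h2⟩ := h
  ext
  · omega
  · omega

/-- same block or far apart -/
theorem rog_block (L x y : ℝ) (K₀ : ℕ) (hL : 0 < L) (hm : ⌊x / L⌋ % (K₀ : ℤ) = ⌊y / L⌋ % (K₀ : ℤ)) :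
    |x - y| < L ∨ ((K₀ : ℝ) - 1) * L < |x - y| := by
  have hx1 := Int.floor_le (x / L)
  have hx2 := Int.lt_floor_add_one (x / L)
  have hy1 := Int.floor_le (y / L)
  have hy2 := Int.lt_floor_add_one (y / L)
  set a := ⌊x / L⌋
  set b := ⌊y / L⌋
  have hxL : x = (x / L) * L := by field_simp
  have hyL : y = (y / L) * L := by field_simp
  have hd : |x - y| = |x / L - y / L| * L := by
    rw [← abs_of_pos hL, ← abs_mul, abs_of_pos hL, sub_mul, ← hxL, ← hyL]
  rcases eq_or_ne a b with h | h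
  · left
    rw [hd]
    have : |x / L - y / L| < 1 := by
      rw [abs_lt]
      rw [h] at hx1 hx2
      constructor <;> linarith
    nlinarith
  · right
    have hdvd : (K₀ : ℤ) ∣ a - b := (show b ≡ a [ZMOD (K₀ : ℤ)] from hm.symm).dvd
    have hne : a - b ≠ 0 := sub_ne_zero.2 h
    have hle : (K₀ : ℤ) ≤ |a - b| := by
      have := Int.le_of_dvd (abs_pos.2 hne) ((dvd_abs _ _).2 hdvd)
      exact this
    have hle' : (K₀ : ℝ) ≤ |(a : ℝ) - b| := by exact_mod_cast hle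
    rw [hd]
    apply mul_lt_mul_of_pos_right _ hL
    rcases abs_cases ((a : ℝ) - b) with ⟨h1, h2⟩ | ⟨h1, h2⟩
    · rw [h1] at hle'
      have := le_abs_self (x / L - y / L)
      linarith
    · rw [h1] at hle'
      have := neg_abs_le (x / L - y / L)
      linarith

theorem rog (hclw : S_CLW) (hrng : S_RNG) (hsma : S_SMA) (hsmb : S_SMB) : S_ROG := by
  intro C₁ hC1
  obtain ⟨C₂, hC₂, hrng'⟩ := hrng C₁ hC1
  obtain ⟨c₀, CA, hc₀, hCA, hsma'⟩ := hsma C₁ hC1
  obtain ⟨CB, hCB, hsmb'⟩ := hsmb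
  refine ⟨c₀, 2 * C₂ / c₀, 1 + 64 * CA + 2 * CB, 1 + 36 * c₀, hc₀, by positivity, by positivity,
    by linarith, ?_⟩
  intro N K₀ Z Ck E hN hK₀ hZ hCk hE0 hE2 hE3 z hz
  have hNr : (1 : ℝ) ≤ N := by exact_mod_cast hN
  have hlogN : 0 ≤ Real.log N := Real.log_nonneg hNr
  -- data of the class
  set w := wz z with hw
  set i := iOf w with hi
  set j := jOf w with hj
  set P : ℝ := 2 ^ i with hP
  set ρ : ℝ := 2 ^ j with hρ
  have hP1 : 1 ≤ P := one_le_pow₀ (by norm_num)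
  have hρ1 : 1 ≤ ρ := one_le_pow₀ (by norm_num)
  have hCl : Cl P ρ w := hclw w
  set Lv := Lb c₀ i j with hLv
  have hLpos : 0 < Lv := lt_of_lt_of_le one_pos (le_max_left _ _)
  have hnsq4 : ∀ z' ∈ Z, 0 ≤ (nsq (wz z') : ℝ) ∧ (nsq (wz z') : ℝ) ≤ 4 * (N : ℝ) ^ 2 := by
    intro z' hz'
    obtain ⟨h1, h2⟩ := hZ z' hz'
    have h3 : z'.1 ^ 2 ≤ (N : ℤ) ^ 2 := sq_le_sq' (by linarith [neg_abs_le z'.1]) (by linarith [le_abs_self z'.1])
    have h4 : z'.2 ^ 2 ≤ (N : ℤ) ^ 2 := sq_le_sq' (by linarith [neg_abs_le z'.2]) (by linarith [le_abs_self z'.2])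
    have h5 : nsq (wz z') ≤ 4 * (N : ℤ) ^ 2 := by
      rw [rog_nsq_wz]
      unfold mz
      linarith
    have h6 : 0 ≤ nsq (wz z') := by
      unfold nsq
      positivity
    exact ⟨by exact_mod_cast h6, by exact_mod_cast h5⟩
  -- the size of ρ
  have hρN : ρ ≤ 8 * N := by
    have h1 := hCl.r1
    have h2 := (hnsq4 z hz).2
    have h3 : ρ ^ 2 ≤ (8 * (N : ℝ)) ^ 2 := by nlinarith
    exact (sq_le_sq₀ (by linarith) (by positivity)).1 h3
  have hlogρ : Real.log ρ ≤ 3 + Real.log N := by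
    calc Real.log ρ ≤ Real.log (8 * N) := Real.log_le_log (by linarith) hρN
      _ = Real.log 8 + Real.log N := Real.log_mul (by norm_num) (by linarith)
      _ ≤ 3 + Real.log N := by
        have : Real.log 8 ≤ 3 := by
          have h8 : (8 : ℝ) = 2 ^ (3 : ℕ) := by norm_num
          rw [h8, Real.log_pow]
          have := Real.log_two_lt_d9
          push_cast
          linarith
        linarith
  have hlogρ0 : 0 ≤ Real.log ρ := Real.log_nonneg hρ1
  set T := Z.filter (fun z' => cls c₀ K₀ (wz z') = cls c₀ K₀ w) with hT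
  set F : ℤ × ℤ → ℝ := fun z' => E (sz z - sz z') (mz z - mz z') with hF
  -- facts for members
  have hmem : ∀ z' ∈ T, z' ∈ Z ∧ SS w (wz z') ∧ Cl P ρ (wz z') ∧
      ⌊(w.1 : ℝ) / Lv⌋ % (K₀ : ℤ) = ⌊((wz z').1 : ℝ) / Lv⌋ % (K₀ : ℤ) := by
    intro z' hz'
    obtain ⟨h1, h2⟩ := Finset.mem_filter.1 hz'
    unfold cls at h2
    simp only [Prod.mk.injEq, decide_eq_decide] at h2
    obtain ⟨⟨h3, h4⟩, ⟨h5, h6⟩, h7⟩ := h2
    rw [h5, h6] at h7
    refine ⟨h1, ⟨h3.symm, h4.symm⟩, ?_, h7.symm⟩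
    have := hclw (wz z')
    rw [h5, h6] at this
    exact this
  have hu : ∀ z' : ℤ × ℤ, ((w.1 : ℝ) - (wz z').1) = ((sz z - sz z' : ℤ) : ℝ) := by
    intro z'
    rw [hw]
    unfold wz sz
    push_cast
    ring
  have hk : ∀ z' : ℤ × ℤ, ((nsq w : ℝ) - nsq (wz z')) = 2 * ((mz z - mz z' : ℤ) : ℝ) := by
    intro z'
    rw [hw, rog_nsq_wz, rog_nsq_wz]
    push_cast
    ring
  -- splitting
  set TA := (T.erase z).filter (fun z' => |((mz z - mz z' : ℤ) : ℝ)| ≤ C₁ * |((sz z - sz z' : ℤ) : ℝ)|) with hTA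
  set TB := (T.erase z).filter (fun z' => ¬ |((mz z - mz z' : ℤ) : ℝ)| ≤ C₁ * |((sz z - sz z' : ℤ) : ℝ)|) with hTB
  have hzT : z ∈ T := Finset.mem_filter.2 ⟨hz, rfl⟩
  have hsplit : ∑ z' ∈ T, F z' = F z + (∑ z' ∈ TA, F z' + ∑ z' ∈ TB, F z') := by
    rw [← Finset.add_sum_erase T F hzT, hTA, hTB, Finset.sum_filter_add_sum_filter_not]
  have hFz : F z ≤ Ck := by
    rw [hF]
    simpa using hE0
  -- resonant part
  have hA : ∑ z' ∈ TA, F z' ≤ Ck * (CA * (1 + Real.log ρ) ^ 3) := by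
    have hAm : ∀ z' ∈ TA, z' ∈ T ∧ z' ≠ z ∧
        |((mz z - mz z' : ℤ) : ℝ)| ≤ C₁ * |((sz z - sz z' : ℤ) : ℝ)| := by
      intro z' hz'
      obtain ⟨h1, h2⟩ := Finset.mem_filter.1 hz'
      obtain ⟨h3, h4⟩ := Finset.mem_erase.1 h1
      exact ⟨h4, h3, h2⟩
    have hAu : ∀ z' ∈ TA, (sz z - sz z' : ℤ) ≠ 0 := by
      intro z' hz' h0
      obtain ⟨h1, h2, h3⟩ := hAm z' hz'
      obtain ⟨h4, h5, -, -⟩ := hmem z' h1
      rw [h0] at h3
      simp only [Int.cast_zero, abs_zero, mul_zero] at h3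
      have h6 : ((mz z - mz z' : ℤ) : ℝ) = 0 := abs_eq_zero.1 (le_antisymm h3 (abs_nonneg _))
      have h7 : mz z - mz z' = 0 := by exact_mod_cast h6
      apply h2
      apply rog_wz_inj
      have h8 : (wz z').1 = (wz z).1 := by
        unfold sz at h0
        unfold wz
        simp only
        omega
      have h9 : nsq (wz z') = nsq (wz z) := by
        rw [rog_nsq_wz, rog_nsq_wz]
        omega
      have h10 : (wz z').2 ^ 2 = (wz z).2 ^ 2 := by
        unfold nsq at h9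
        rw [h8] at h9
        linarith
      have h11 := h5.2
      rw [hw] at h11
      have h12 : (wz z').2 = (wz z).2 := by
        rcases sq_eq_sq_iff_eq_or_eq_neg.1 h10 with h | h
        · exact h
        · rcases lt_trichotomy (wz z).2 0 with h' | h' | h'
          · exact absurd (h11.2 (by omega)) (by omega)
          · omega
          · exact absurd (h11.1 h'.le) (by omega)
      exact Prod.ext h8 h12
    have hAL : ∀ z' ∈ TA, |(w.1 : ℝ) - (wz z').1| < Lv := by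
      intro z' hz'
      obtain ⟨h1, h2, h3⟩ := hAm z' hz'
      obtain ⟨h4, h5, h6, h7⟩ := hmem z' h1
      rcases rog_block Lv _ _ K₀ hLpos h7 with h | h
      · exact h
      · exfalso
        have h8 : |(nsq w : ℝ) - nsq (wz z')| ≤ 2 * C₁ * |(w.1 : ℝ) - (wz z').1| := by
          rw [hk, hu, abs_mul, abs_of_pos (by norm_num : (0 : ℝ) < 2)]
          linarith
        have h9 := hrng' P ρ w (wz z') hP1 hρ1 hCl h6 h5 h8
        have h10 : c₀ * P ^ 2 / ρ ^ (4 / 3 : ℝ) ≤ Lv := by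
          rw [hLv]
          unfold Lb
          refine le_trans (le_of_eq ?_) (le_max_right _ _)
          rw [hP, hρ, ← pow_mul, mul_comm i 2, pow_mul]
          norm_num
        have h11 : ρ ^ (1 / 3 : ℝ) ≤ 2 * (N : ℝ) ^ (1 / 3 : ℝ) := by
          calc ρ ^ (1 / 3 : ℝ) ≤ (8 * (N : ℝ)) ^ (1 / 3 : ℝ) :=
                Real.rpow_le_rpow (by linarith) hρN (by norm_num)
            _ = (8 : ℝ) ^ (1 / 3 : ℝ) * (N : ℝ) ^ (1 / 3 : ℝ) := Real.mul_rpow (by norm_num) (by linarith)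
            _ = _ := by
              have : (8 : ℝ) ^ (1 / 3 : ℝ) = 2 := by
                rw [show (8 : ℝ) = 2 ^ (3 : ℝ) by norm_num, ← Real.rpow_mul (by norm_num)]
                norm_num
              rw [this]
        have h12 : ρ ^ (4 / 3 : ℝ) = ρ * ρ ^ (1 / 3 : ℝ) := by
          rw [← Real.rpow_one_add' (by linarith) (by norm_num)]
          norm_num
        have h13 : 0 < ρ ^ (1 / 3 : ℝ) := Real.rpow_pos_of_pos (by linarith) _
        have h14 : C₂ * (P ^ 2 / ρ) ≤ ((K₀ : ℝ) - 1) * Lv := by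
          have h15 : (2 * C₂ / c₀ * (N : ℝ) ^ (1 / 3 : ℝ)) * (c₀ * P ^ 2 / ρ ^ (4 / 3 : ℝ)) ≤
              ((K₀ : ℝ) - 1) * Lv := by
            apply mul_le_mul _ h10 (by positivity) (by
              have : 0 ≤ 2 * C₂ / c₀ * (N : ℝ) ^ (1 / 3 : ℝ) := by positivity
              linarith)
            linarith
          refine le_trans ?_ h15
          rw [h12]
          have hρ0 : 0 < ρ := by linarith
          have h16 : 2 * C₂ / c₀ * (N : ℝ) ^ (1 / 3 : ℝ) * (c₀ * P ^ 2 / (ρ * ρ ^ (1 / 3 : ℝ))) =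
              C₂ * (P ^ 2 / ρ) * (2 * (N : ℝ) ^ (1 / 3 : ℝ) / ρ ^ (1 / 3 : ℝ)) := by
            field_simp
          rw [h16]
          have h17 : 1 ≤ 2 * (N : ℝ) ^ (1 / 3 : ℝ) / ρ ^ (1 / 3 : ℝ) := by
            rw [le_div_iff₀ h13]
            linarith
          exact le_mul_of_one_le_right (by positivity) h17
        linarith
    rcases TA.eq_empty_or_nonempty with he | ⟨z₁, hz₁⟩
    · rw [he, Finset.sum_empty]
      positivity
    · have hL1 : Lv = c₀ * P ^ 2 / ρ ^ (4 / 3 : ℝ) := by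
        have h1 := hAL z₁ hz₁
        rw [hu] at h1
        have h2 : (1 : ℝ) ≤ |((sz z - sz z₁ : ℤ) : ℝ)| := by
          have := Int.one_le_abs (hAu z₁ hz₁)
          exact_mod_cast this
        have h3 : 1 < Lv := lt_of_le_of_lt h2 h1
        have h4 : Lv = c₀ * 4 ^ i / ((2 : ℝ) ^ j) ^ (4 / 3 : ℝ) := by
          rw [hLv]
          unfold Lb
          rw [hLv] at h3
          unfold Lb at h3
          rcases le_total 1 (c₀ * 4 ^ i / ((2 : ℝ) ^ j) ^ (4 / 3 : ℝ)) with h | h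
          · exact max_eq_right h
          · rw [max_eq_left h] at h3
            exact absurd h3 (lt_irrefl _)
        rw [h4, hP, hρ, ← pow_mul, mul_comm i 2, pow_mul]
        norm_num
      have hLD : c₀ * P ^ 2 / ρ ^ (4 / 3 : ℝ) ≤ (1 + 36 * c₀) * (N : ℝ) ^ (2 / 3 : ℝ) := by
        have hρ0 : 0 < ρ := by linarith
        have h1 : P ≤ 3 * ρ := by
          have h2 := hCl.p1
          have h3 := hCl.r2
          have h4 : (w.2 : ℝ) ^ 2 ≤ (nsq w : ℝ) := by
            unfold nsq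
            push_cast
            nlinarith [sq_nonneg (w.1 : ℝ)]
          have h5 : |(w.2 : ℝ)| ≤ 2 * ρ := by
            apply abs_le_of_sq_le_sq _ (by linarith)
            nlinarith
          linarith
        have h2 : ρ ^ 2 = ρ ^ (4 / 3 : ℝ) * ρ ^ (2 / 3 : ℝ) := by
          rw [← Real.rpow_add hρ0, ← Real.rpow_natCast]
          norm_num
        have h3 : 0 < ρ ^ (4 / 3 : ℝ) := Real.rpow_pos_of_pos hρ0 _
        have h4 : ρ ^ (2 / 3 : ℝ) ≤ 4 * (N : ℝ) ^ (2 / 3 : ℝ) := by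
          calc ρ ^ (2 / 3 : ℝ) ≤ (8 * (N : ℝ)) ^ (2 / 3 : ℝ) :=
                Real.rpow_le_rpow (by linarith) hρN (by norm_num)
            _ = (8 : ℝ) ^ (2 / 3 : ℝ) * (N : ℝ) ^ (2 / 3 : ℝ) := Real.mul_rpow (by norm_num) (by linarith)
            _ = _ := by
              have : (8 : ℝ) ^ (2 / 3 : ℝ) = 4 := by
                rw [show (8 : ℝ) = 2 ^ (3 : ℝ) by norm_num, ← Real.rpow_mul (by norm_num)]
                norm_num
              rw [this]
        have h5 : 0 ≤ (N : ℝ) ^ (2 / 3 : ℝ) := by positivity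
        have h6 : P ^ 2 ≤ 9 * ρ ^ 2 := by nlinarith
        rw [div_le_iff₀ h3]
        calc c₀ * P ^ 2 ≤ c₀ * (9 * ρ ^ 2) := by gcongr
          _ = (9 * c₀) * ρ ^ (2 / 3 : ℝ) * ρ ^ (4 / 3 : ℝ) := by rw [h2]; ring
          _ ≤ (9 * c₀) * (4 * (N : ℝ) ^ (2 / 3 : ℝ)) * ρ ^ (4 / 3 : ℝ) := by gcongr
          _ ≤ (1 + 36 * c₀) * (N : ℝ) ^ (2 / 3 : ℝ) * ρ ^ (4 / 3 : ℝ) := by
              apply mul_le_mul_of_nonneg_right _ h3.le
              nlinarith
      have hbound : ∀ z' ∈ TA, F z' ≤ Ck * (1 / Real.sqrt |(w.1 : ℝ) - (wz z').1|) := by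
        intro z' hz'
        obtain ⟨h1, h2, h3⟩ := hAm z' hz'
        have := hE2 (sz z - sz z') (mz z - mz z') (hAu z' hz') (by
          rw [← hu]
          exact le_trans (hAL z' hz').le (hL1.le.trans hLD)) h3
        rw [hu, mul_one_div]
        exact this
      calc ∑ z' ∈ TA, F z' ≤ ∑ z' ∈ TA, Ck * (1 / Real.sqrt |(w.1 : ℝ) - (wz z').1|) :=
            Finset.sum_le_sum hbound
        _ = Ck * ∑ w' ∈ TA.image wz, 1 / Real.sqrt |(w.1 : ℝ) - w'.1| := by
            rw [Finset.sum_image (fun a _ b _ h => rog_wz_inj h), Finset.mul_sum]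
        _ ≤ Ck * (CA * (1 + Real.log ρ) ^ 3) := by
            apply mul_le_mul_of_nonneg_left _ hCk
            apply hsma' P ρ Lv w _ hP1 hρ1 hL1.le hCl
            intro w' hw'
            obtain ⟨z', hz', rfl⟩ := Finset.mem_image.1 hw'
            obtain ⟨h1, h2, h3⟩ := hAm z' hz'
            obtain ⟨h4, h5, h6, h7⟩ := hmem z' h1
            refine ⟨h6, h5, ?_, (hAL z' hz').le, ?_⟩
            · intro h
              apply hAu z' hz'
              have : ((w.1 : ℝ) - (wz z').1) = 0 := by rw [h]; ring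
              rw [hu] at this
              exact_mod_cast this
            · rw [hk, hu, abs_mul, abs_of_pos (by norm_num : (0 : ℝ) < 2)]
              linarith
  -- nonresonant part
  have hB : ∑ z' ∈ TB, F z' ≤ 2 * Ck * (CB * (1 + Real.log N)) := by
    have hBm : ∀ z' ∈ TB, z' ∈ T ∧ z' ≠ z ∧
        C₁ * |((sz z - sz z' : ℤ) : ℝ)| < |((mz z - mz z' : ℤ) : ℝ)| := by
      intro z' hz'
      obtain ⟨h1, h2⟩ := Finset.mem_filter.1 hz'
      obtain ⟨h3, h4⟩ := Finset.mem_erase.1 h1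
      exact ⟨h4, h3, not_le.1 h2⟩
    have hBk : ∀ z' ∈ TB, (mz z - mz z' : ℤ) ≠ 0 := by
      intro z' hz' h0
      obtain ⟨h1, h2, h3⟩ := hBm z' hz'
      rw [h0] at h3
      simp only [Int.cast_zero, abs_zero] at h3
      have : 0 ≤ C₁ * |((sz z - sz z' : ℤ) : ℝ)| := by positivity
      linarith
    have hbound : ∀ z' ∈ TB, F z' ≤ 2 * Ck * (1 / |(nsq w : ℝ) - nsq (wz z')|) := by
      intro z' hz'
      obtain ⟨h1, h2, h3⟩ := hBm z' hz'
      have h4 := hE3 (sz z - sz z') (mz z - mz z') (hBk z' hz') h3.le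
      have h5 : (0 : ℝ) < |((mz z - mz z' : ℤ) : ℝ)| := by
        apply abs_pos.2
        exact_mod_cast hBk z' hz'
      refine le_trans h4 (le_of_eq ?_)
      rw [hk, abs_mul, abs_of_pos (by norm_num : (0 : ℝ) < 2)]
      field_simp
    calc ∑ z' ∈ TB, F z' ≤ ∑ z' ∈ TB, 2 * Ck * (1 / |(nsq w : ℝ) - nsq (wz z')|) :=
          Finset.sum_le_sum hbound
      _ = 2 * Ck * ∑ w' ∈ TB.image wz, 1 / |(nsq w : ℝ) - nsq w'| := by
          rw [Finset.sum_image (fun a _ b _ h => rog_wz_inj h), Finset.mul_sum]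
      _ ≤ 2 * Ck * (CB * (1 + Real.log N)) := by
          apply mul_le_mul_of_nonneg_left _ (by positivity)
          apply hsmb' N P ρ w _ hN hP1 hρ1 hCl
          intro w' hw'
          obtain ⟨z', hz', rfl⟩ := Finset.mem_image.1 hw'
          obtain ⟨h1, h2, h3⟩ := hBm z' hz'
          obtain ⟨h4, h5, h6, h7⟩ := hmem z' h1
          refine ⟨h6, h5, ?_, ?_, ?_⟩
          · intro h
            apply hBk z' hz'
            rw [hw, rog_nsq_wz, rog_nsq_wz] at h
            omega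
          · rw [hk, hu, abs_mul, abs_of_pos (by norm_num : (0 : ℝ) < 2)]
            have h8 : |((sz z - sz z' : ℤ) : ℝ)| ≤ C₁ * |((sz z - sz z' : ℤ) : ℝ)| :=
              le_mul_of_one_le_left (abs_nonneg _) hC1
            linarith
          · obtain ⟨h8, h9⟩ := hnsq4 z hz
            obtain ⟨h10, h11⟩ := hnsq4 z' h4
            rw [abs_le]
            constructor
            · rw [hw]
              nlinarith
            · rw [hw]
              nlinarith
  have hfin1 : (1 + Real.log ρ) ^ 3 ≤ 64 * (1 + Real.log N) ^ 3 := by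
    have h1 : 1 + Real.log ρ ≤ 4 * (1 + Real.log N) := by linarith
    calc (1 + Real.log ρ) ^ 3 ≤ (4 * (1 + Real.log N)) ^ 3 := pow_le_pow_left₀ (by linarith) h1 3
      _ = _ := by ring
  have hfin2 : 1 + Real.log N ≤ (1 + Real.log N) ^ 3 := by
    have h1 : 1 ≤ 1 + Real.log N := by linarith
    calc 1 + Real.log N = (1 + Real.log N) ^ 1 := (pow_one _).symm
      _ ≤ _ := pow_le_pow_right₀ h1 (by norm_num)
  have hfin3 : 1 ≤ (1 + Real.log N) ^ 3 := one_le_pow₀ (by linarith)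
  calc ∑ z' ∈ T, F z' = F z + (∑ z' ∈ TA, F z' + ∑ z' ∈ TB, F z') := hsplit
    _ ≤ Ck + (Ck * (CA * (1 + Real.log ρ) ^ 3) + 2 * Ck * (CB * (1 + Real.log N))) := by linarith
    _ ≤ Ck * (1 + Real.log N) ^ 3 + (Ck * (CA * (64 * (1 + Real.log N) ^ 3)) +
        2 * Ck * (CB * (1 + Real.log N) ^ 3)) := by
        have h1 : Ck * (CA * (1 + Real.log ρ) ^ 3) ≤ Ck * (CA * (64 * (1 + Real.log N) ^ 3)) := by
          gcongr
        have h2 : 2 * Ck * (CB * (1 + Real.log N)) ≤ 2 * Ck * (CB * (1 + Real.log N) ^ 3) := by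
          gcongr
        have h3 : Ck ≤ Ck * (1 + Real.log N) ^ 3 := le_mul_of_one_le_right hCk hfin3
        linarith
    _ = _ := by ring

end Pool.Agent.H79.QN
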